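import Pool.Agent.helper32.EX.SpecA

set_option autoImplicit false

namespace Pool.Agent.EX

theorem SQR : SQR_stmt := by
  classical
  intro n C _ R _ α v
  induction v using LV_ind with
  | h0 => simp
  | hadd u v hu hv =>
    rw [br_add_right, br_add_right, hu, hv, fo_add_right, mul_add, add_smul]
  | hh i t =>
    rw [br_ev_h, br_ev_zero (by rw [α.2]; norm_num), fo_ev]
    simp
  | he β t =>
    by_cases hβ : β = -α
    · subst hβ
      rw [br_ev_neg, br_ev_h, fo_ev, ev_snd_self, bl_neg_left, bl_smul_left, bl_rt, α.2, smul_ev]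
      congr 1
      push_cast
      ring
    · have hfo : fo (ev C α 1) (ev C β t) = 0 := by
        rw [fo_ev, ev_snd, if_neg (fun h => hβ h.symm), mul_zero]
      rw [hfo, mul_zero, zero_smul]
      by_cases h0 : 0 ≤ Q C α.1 β.1
      · rw [br_ev_zero h0, br_zero_right]
      · have hb := bd α β
        have hne : Q C α.1 β.1 ≠ -2 := fun h => hβ (Q_eq_neg_two h)
        have h1 : Q C α.1 β.1 = -1 := by omega
        have hγ : Q C (α.1 + β.1) (α.1 + β.1) = 2 := by rw [Q_add_self, h1]; norm_num
        rw [br_ev_add (γ := ⟨α.1 + β.1, hγ⟩) rfl]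
        refine br_ev_zero ?_ _ _
        change 0 ≤ Q C α.1 (α.1 + β.1)
        rw [Q_add_right, α.2, h1]
        norm_num

end Pool.Agent.EX
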